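import Pool.Agent.H5.Dem.Stmts

set_option autoImplicit false

namespace Pool.Agent.H5.Dem

namespace KLaux

variable {A : Type} [AddCommGroup A]

/-- The map `DD` as a homomorphism. -/
def DH (X Y Z : Au A) : A × A × A →+ A where
  toFun v := DD X Y Z v.1 v.2.1 v.2.2
  map_zero' := by simp [DD]
  map_add' u v := by
    simp only [DD, Prod.fst_add, Prod.snd_add, map_add, map_sub]
    abel

theorem alg (X Y Z : Au A) (k : ℕ) (h8 : ∀ a : A, 8 • a = 0) (hY : Y ^ (2 ^ k) = 1)
    {B : Type} [AddCommGroup B] (q : A →+ B) :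
    (∀ v : A × A × A, q (DD X Y Z v.1 v.2.1 v.2.2) = 0) ↔
      (∀ a, q (X a) = q (7 • a)) ∧ (∀ a, q (Y a) = q a) ∧ ∀ a, q (Z a) = q (5 • a) := by
  have h8q : ∀ a, 8 • q a = 0 := fun a => by rw [← map_nsmul, h8, map_zero]
  constructor
  · intro h
    have hX : ∀ a, q (X a) = q (7 • a) := by
      intro a
      have h1 := h (a, 0, 0)
      simp only [DD, map_zero, add_zero, sub_zero, map_add] at h1
      have h2 := h8q a
      rw [map_nsmul]
      linear_combination (norm := module) h1 - h2
    have hXX : ∀ v, q ((X * X) v) = q v := by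
      intro v
      rw [LinearEquiv.mul_apply, hX, map_nsmul, hX, map_nsmul]
      have h2 := h8q v
      linear_combination (norm := module) (6 : ℤ) • h2
    have h3 : ∀ b, q b + q (Y b) + q ((Y * Y) b) + q ((Y * Y * Y * Z⁻¹) b) = 0 := by
      intro b
      have h1 := h (0, b, 0)
      simp only [DD, map_zero, add_zero, sub_zero, zero_add] at h1
      rw [hXX] at h1
      simpa only [map_add] using h1
    have h4 : ∀ c, q ((Y * Y * Y * Z⁻¹) (Y c)) = q ((Y * Y * Y * Z⁻¹) c) := by
      intro c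
      have h1 := h (0, 0, c)
      simp only [DD, map_zero, add_zero, zero_add] at h1
      have h2 : (X * X * Y * Y * Y * Z⁻¹) (Y c - c) = (X * X) ((Y * Y * Y * Z⁻¹) (Y c - c)) := by
        simp [LinearEquiv.mul_apply]
      rw [h2, hXX, map_sub, map_sub] at h1
      exact sub_eq_zero.mp h1
    have h5 : ∀ c, q ((Y * Y * Y) c) = q c := by
      intro c
      have e1 := h3 (Y c)
      have e2 := h3 c
      have e3 := h4 c
      have e4 : (Y * Y * Y) c = (Y * Y) (Y c) := rfl
      have e5 : (Y * Y) c = Y (Y c) := rfl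
      rw [e4]
      rw [e5] at e2
      rw [e3] at e1
      linear_combination (norm := module) e1 - e2
    have h6 : ∀ (m : ℕ) c, q (((Y ^ 3) ^ m) c) = q c := by
      intro m
      induction m with
      | zero => intro c; simp
      | succ m ih =>
        intro c
        rw [pow_succ, LinearEquiv.mul_apply, ih]
        have : Y ^ 3 = Y * Y * Y := by rw [pow_succ, pow_two]
        rw [this]
        exact h5 c
    have hYq : ∀ c, q (Y c) = q c := by
      intro c
      have hco : Nat.Coprime 3 (2 ^ k) := Nat.Coprime.pow_right k (by norm_num)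
      obtain ⟨m, hm⟩ : ∃ m, 3 * m ≡ 1 [MOD 2 ^ k] := by
        rcases Nat.eq_zero_or_pos k with hk | hk
        · subst hk
          exact ⟨0, by simp [Nat.ModEq, Nat.mod_one]⟩
        · obtain ⟨m, -, hm⟩ := Nat.exists_mul_mod_eq_one_of_coprime hco
            (Nat.one_lt_two_pow hk.ne')
          refine ⟨m, ?_⟩
          rw [Nat.ModEq, hm, Nat.mod_eq_of_lt (Nat.one_lt_two_pow hk.ne')]
      have h7 : (Y ^ 3) ^ m = Y := by
        rw [← pow_mul]
        have h8 : orderOf Y ∣ 2 ^ k := orderOf_dvd_of_pow_eq_one hY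
        have h9 : 3 * m ≡ 1 [MOD orderOf Y] := hm.of_dvd h8
        rw [pow_eq_pow_iff_modEq.mpr h9, pow_one]
      have := h6 m c
      rwa [h7] at this
    refine ⟨hX, hYq, ?_⟩
    have h7 : ∀ b, q (Z⁻¹ b) = q (5 • b) := by
      intro b
      have e1 := h3 b
      have e2 : (Y * Y) b = Y (Y b) := rfl
      have e3 : (Y * Y * Y * Z⁻¹) b = Y (Y (Y (Z⁻¹ b))) := rfl
      rw [e2, e3, hYq, hYq, hYq, hYq, hYq, hYq] at e1
      rw [map_nsmul]
      have e4 := h8q b
      linear_combination (norm := module) e1 - e4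
    intro a
    have e1 := h7 (Z (5 • a))
    have e2 : Z⁻¹ (Z (5 • a)) = 5 • a := by
      change (Z⁻¹ * Z) (5 • a) = _
      rw [inv_mul_cancel]
      rfl
    rw [e2, map_nsmul q 5, map_nsmul Z, map_nsmul q, map_nsmul q] at e1
    have e3 := h8q (Z a)
    rw [map_nsmul]
    linear_combination (norm := module) (-1 : ℤ) • e1 - (3 : ℤ) • e3
  · rintro ⟨hX, hYq, hZ⟩ ⟨a, b, c⟩
    have hZ' : ∀ b, q (Z⁻¹ b) = q (5 • b) := by
      intro b
      have e1 := hZ (Z⁻¹ (5 • b))
      have e2 : Z (Z⁻¹ (5 • b)) = 5 • b := by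
        change (Z * Z⁻¹) (5 • b) = _
        rw [mul_inv_cancel]
        rfl
      rw [e2, map_nsmul q 5, map_nsmul Z⁻¹, map_nsmul q, map_nsmul q] at e1
      have e3 := h8q (Z⁻¹ b)
      rw [map_nsmul]
      linear_combination (norm := module) (-1 : ℤ) • e1 - (3 : ℤ) • e3
    have hXX : ∀ v, q ((X * X) v) = q v := by
      intro v
      rw [LinearEquiv.mul_apply, hX, map_nsmul, hX, map_nsmul]
      have h2 := h8q v
      linear_combination (norm := module) (6 : ℤ) • h2
    have h2 : (X * X * Y * Y * Y * Z⁻¹) (Y c - c) = (X * X) ((Y * Y * Y * Z⁻¹) (Y c - c)) := by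
      simp [LinearEquiv.mul_apply]
    simp only [DD]
    rw [h2, map_add, map_add, map_add, hXX, hXX, hX]
    have e2 : (Y * Y) b = Y (Y b) := rfl
    have e3 : ∀ b, (Y * Y * Y * Z⁻¹) b = Y (Y (Y (Z⁻¹ b))) := fun _ => rfl
    rw [e2, e3, e3, map_add, map_add, map_add, hYq, hYq, hYq, hYq, hYq, hYq, hZ', hYq, hYq, hYq,
      hZ', map_nsmul, map_nsmul, map_nsmul, map_sub, hYq]
    have g1 := h8q a
    have g2 := h8q b
    linear_combination (norm := module) g1 + g2

end KLaux

open KLaux in
theorem kl : KLStmt := by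
  intro A _ _ X Y Z k h8 hY
  classical
  set D := DH X Y Z with hD
  set B : AddSubgroup A := D.range with hB
  -- the kernel
  have h1 : Nat.card {v : A × A × A // DD X Y Z v.1 v.2.1 v.2.2 = 0} = Nat.card D.ker := rfl
  have h2 : Nat.card D.ker * Nat.card B = Nat.card A ^ 3 := by
    have e1 := AddSubgroup.card_eq_card_quotient_mul_card_addSubgroup D.ker
    have e2 : Nat.card ((A × A × A) ⧸ D.ker) = Nat.card B :=
      Nat.card_congr (QuotientAddGroup.quotientKerEquivRange D).toEquiv
    rw [e2, Nat.card_prod, Nat.card_prod] at e1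
    rw [mul_comm, ← e1]
    ring
  have h3 : Nat.card A = Nat.card (A ⧸ B) * Nat.card B :=
    AddSubgroup.card_eq_card_quotient_mul_card_addSubgroup B
  have hB0 : 0 < Nat.card B := Nat.card_pos
  have h4 : Nat.card D.ker = Nat.card A ^ 2 * Nat.card (A ⧸ B) := by
    have : Nat.card D.ker * Nat.card B = (Nat.card A ^ 2 * Nat.card (A ⧸ B)) * Nat.card B := by
      rw [h2, mul_assoc, ← h3]
      ring
    exact Nat.eq_of_mul_eq_mul_right hB0 this
  rw [h1, h4]
  congr 1
  -- characters of the quotient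
  have h5 : Nat.card (AddChar (A ⧸ B) ℂ) = Nat.card (A ⧸ B) := by
    let _ : Fintype (A ⧸ B) := Fintype.ofFinite _
    rw [Nat.card_eq_fintype_card, Nat.card_eq_fintype_card]
    exact AddChar.card_eq
  rw [← h5]
  have hcond : ∀ ψ : AddChar A ℂ, (∀ b ∈ B, ψ b = 1) ↔
      ((∀ a, ψ (X a) = ψ (7 • a)) ∧ (∀ a, ψ (Y a) = ψ a) ∧ ∀ a, ψ (Z a) = ψ (5 • a)) := by
    intro ψ
    let K : AddSubgroup A :=
      { carrier := {a | ψ a = 1}
        zero_mem' := ψ.map_zero_eq_one
        add_mem' := fun {a b} ha hb => by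
          have ha' : ψ a = 1 := ha
          have hb' : ψ b = 1 := hb
          change ψ (a + b) = 1
          rw [ψ.map_add_eq_mul, ha', hb', one_mul]
        neg_mem' := fun {a} ha => by
          have ha' : ψ a = 1 := ha
          change ψ (-a) = 1
          rw [ψ.map_neg_eq_inv, ha', inv_one] }
    have hq : ∀ a b : A, QuotientAddGroup.mk' K a = QuotientAddGroup.mk' K b ↔ ψ a = ψ b := by
      intro a b
      rw [QuotientAddGroup.mk'_apply, QuotientAddGroup.mk'_apply, QuotientAddGroup.eq]
      change ψ (-a + b) = 1 ↔ _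
      have h0 : ψ a ≠ 0 := by
        intro h
        have := ψ.map_add_eq_mul a (-a)
        rw [h, zero_mul, add_neg_cancel, ψ.map_zero_eq_one] at this
        exact one_ne_zero this
      rw [ψ.map_add_eq_mul, ψ.map_neg_eq_inv]
      constructor
      · intro h
        field_simp at h
        exact h.symm
      · intro h
        rw [← h]
        exact inv_mul_cancel₀ h0
    have hψ := alg X Y Z k h8 hY (QuotientAddGroup.mk' K)
    simp only [hq] at hψ
    rw [← hψ]
    have hz : ∀ a, QuotientAddGroup.mk' K a = 0 ↔ ψ a = 1 := by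
      intro a
      rw [← map_zero (QuotientAddGroup.mk' K), hq, ψ.map_zero_eq_one]
    simp only [hz]
    constructor
    · intro h v
      exact h _ ⟨v, rfl⟩
    · rintro h b ⟨v, rfl⟩
      exact h v
  have h6 : Nat.card {ψ : AddChar A ℂ // ∀ b ∈ B, ψ b = 1} = Nat.card (AddChar (A ⧸ B) ℂ) := by
    symm
    refine Nat.card_eq_of_bijective
      (fun φ : AddChar (A ⧸ B) ℂ => (⟨φ.compAddMonoidHom (QuotientAddGroup.mk' B), fun b hb => by
        have : QuotientAddGroup.mk' B b = 0 := (QuotientAddGroup.eq_zero_iff b).mpr hb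
        rw [AddChar.compAddMonoidHom_apply, this, φ.map_zero_eq_one]⟩ :
          {ψ : AddChar A ℂ // ∀ b ∈ B, ψ b = 1})) ⟨?_, ?_⟩
    · intro φ φ' h
      have h' := congrArg Subtype.val h
      refine DFunLike.ext _ _ fun a => ?_
      obtain ⟨a, rfl⟩ := QuotientAddGroup.mk'_surjective B a
      exact DFunLike.congr_fun h' a
    · rintro ⟨ψ, hψ⟩
      refine ⟨AddChar.toAddMonoidHomEquiv.symm
        (QuotientAddGroup.lift B (AddChar.toAddMonoidHomEquiv ψ) fun b hb => ?_), ?_⟩
      · have := hψ b hb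
        change Additive.ofMul (ψ b) = 0
        rw [this]
        rfl
      · apply Subtype.ext
        refine DFunLike.ext _ _ fun a => ?_
        rfl
  rw [← h6]
  exact Nat.card_congr (Equiv.subtypeEquivRight hcond)

end Pool.Agent.H5.Dem
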